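import Pool.Agent.Run7.h207.GC.Iface

set_option autoImplicit false

namespace Pool.Agent.Run7.h11.GC

open Finset
open Pool.Agent.Run7.h207.GC
open Pool.Agent.H162R2.AG Pool.Agent.H162R2.Sparse

/-- numerical choices -/
lemma num_s (C δ ε : ℝ) (N₀ : ℕ) (hδ : 0 < δ) (hε : 0 < ε) : ∃ s₀ : ℝ, ∀ s : ℝ, s₀ ≤ s →
    2 ≤ s ∧ 4 * (N₀ : ℝ) ≤ s ∧ |C| + 3 ≤ s ∧ 12 * (s ^ 382 * Real.exp (-(min ε (1 / 2)) * s)) ≤ δ := by
  have hc : 0 < min ε (1 / 2 : ℝ) := lt_min hε (by norm_num)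
  have h1 := tendsto_rpow_mul_exp_neg_mul_atTop_nhds_zero (382 : ℝ) (min ε (1 / 2)) hc
  have h2 := (h1.const_mul 12).eventually (gt_mem_nhds (show 12 * (0 : ℝ) < δ by simpa using hδ))
  obtain ⟨s₁, hs₁⟩ := Filter.eventually_atTop.1 h2
  refine ⟨max s₁ (max 2 (max (4 * N₀) (|C| + 3))), fun s hs => ?_⟩
  have a1 : s₁ ≤ s := le_trans (le_max_left _ _) hs
  have a2 : max 2 (max (4 * (N₀ : ℝ)) (|C| + 3)) ≤ s := le_trans (le_max_right _ _) hs
  have a3 : 2 ≤ s := le_trans (le_max_left _ _) a2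
  have a4 : max (4 * (N₀ : ℝ)) (|C| + 3) ≤ s := le_trans (le_max_right _ _) a2
  refine ⟨a3, le_trans (le_max_left _ _) a4, le_trans (le_max_right _ _) a4, ?_⟩
  have h := (hs₁ s a1).le
  have e : s ^ (382 : ℝ) = s ^ 382 := by
    simp
  rw [e] at h
  exact h

lemma num (C δ ε : ℝ) (N₀ : ℕ) (hδ : 0 < δ) (hε : 0 < ε) (hε1 : ε ≤ 1) :
    ∃ n₀ : ℕ, ∀ n : ℕ, n₀ ≤ n → ∃ (K b : ℕ) (t t' : ℝ), 0 ≤ t ∧ 0 ≤ t' ∧ K * b + 3 ≤ n ∧
      N₀ ≤ n - K * b ∧
      C * √n + 1 + t ≤ (2 * (|C| + 2)) * √((n : ℝ) - K * b) ∧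
      C * √n + t' + 2 ≤ K ∧
      (n : ℝ) * (2 * Real.exp (-(2 * t' ^ 2 / n))) + (n : ℝ) ^ 3 *
        (K * (1 - ε) ^ b + ((K * b : ℕ) : ℝ) * (2 * Real.exp (-(2 * t ^ 2 / ((K * b : ℕ) : ℝ))))) ≤ δ := by
  obtain ⟨s₀, hs₀⟩ := num_s C δ ε N₀ hδ hε
  refine ⟨⌈(max s₀ 0) ^ 100⌉₊, fun n hn => ?_⟩
  have hn' : (max s₀ 0) ^ 100 ≤ (n : ℝ) := by
    exact (Nat.le_ceil _).trans (by exact_mod_cast hn)
  set s : ℝ := (n : ℝ) ^ ((1 : ℝ) / 100) with hs
  have hn0 : (0 : ℝ) ≤ n := Nat.cast_nonneg n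
  have hs100 : s ^ 100 = n := by
    rw [hs, ← Real.rpow_natCast, ← Real.rpow_mul hn0]
    norm_num
  have hs0 : 0 ≤ s := Real.rpow_nonneg hn0 _
  have hss : s₀ ≤ s := by
    refine le_trans (le_max_left s₀ 0) ?_
    by_contra hlt
    push Not at hlt
    have : s ^ 100 < (max s₀ 0) ^ 100 := pow_lt_pow_left₀ hlt hs0 (by norm_num)
    rw [hs100] at this
    linarith
  obtain ⟨s2, sN, sC, sE⟩ := hs₀ s hss
  have s1 : (1 : ℝ) ≤ s := by linarith
  have hp : ∀ k : ℕ, (1 : ℝ) ≤ s ^ k := fun k => one_le_pow₀ s1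
  have hmono : ∀ {j k : ℕ}, j ≤ k → s ^ j ≤ s ^ k := fun h => pow_le_pow_right₀ s1 h
  have hs1' : ∀ k : ℕ, 1 ≤ k → s ≤ s ^ k := fun k hk => by
    calc s = s ^ 1 := (pow_one s).symm
      _ ≤ s ^ k := hmono hk
  set K : ℕ := ⌈s ^ 52⌉₊ with hK
  set b : ℕ := ⌈s ^ 30⌉₊ with hb
  have hK1 : s ^ 52 ≤ K := Nat.le_ceil _
  have hb1 : s ^ 30 ≤ b := Nat.le_ceil _
  have hK2 : (K : ℝ) ≤ 2 * s ^ 52 := by
    have := (Nat.ceil_lt_add_one (show 0 ≤ s ^ 52 by positivity)).le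
    have h1 := hp 52
    rw [← hK] at this
    linarith
  have hb2 : (b : ℝ) ≤ 2 * s ^ 30 := by
    have := (Nat.ceil_lt_add_one (show 0 ≤ s ^ 30 by positivity)).le
    have h1 := hp 30
    rw [← hb] at this
    linarith
  have hKb : (K : ℝ) * b ≤ 4 * s ^ 82 := by
    calc (K : ℝ) * b ≤ (2 * s ^ 52) * (2 * s ^ 30) :=
          mul_le_mul hK2 hb2 (Nat.cast_nonneg _) (by positivity)
      _ = 4 * s ^ 82 := by ring
  have hKb1 : s ^ 82 ≤ (K : ℝ) * b := by
    calc s ^ 82 = s ^ 52 * s ^ 30 := by ring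
      _ ≤ (K : ℝ) * b := mul_le_mul hK1 hb1 (by positivity) (Nat.cast_nonneg _)
  have h18 : (262144 : ℝ) ≤ s ^ 18 := by
    calc (262144 : ℝ) = 2 ^ 18 := by norm_num
      _ ≤ s ^ 18 := pow_le_pow_left₀ (by norm_num) s2 18
  have h100 : 262144 * s ^ 82 ≤ s ^ 100 := by
    calc 262144 * s ^ 82 ≤ s ^ 18 * s ^ 82 := mul_le_mul_of_nonneg_right h18 (by positivity)
      _ = s ^ 100 := by ring
  have h82 := hp 82
  have hle : (K : ℝ) * b + 3 ≤ n := by
    rw [← hs100]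
    linarith
  have hleN : K * b + 3 ≤ n := by exact_mod_cast hle
  have hquart : (n : ℝ) / 4 ≤ (n : ℝ) - K * b := by
    rw [← hs100]
    linarith
  have hsqrt : √(n : ℝ) = s ^ 50 := by
    rw [← hs100, show s ^ 100 = (s ^ 50) ^ 2 by ring, Real.sqrt_sq (by positivity)]
  have hsqrt2 : s ^ 50 / 2 ≤ √((n : ℝ) - K * b) := by
    apply Real.le_sqrt_of_sq_le
    refine le_trans (le_of_eq ?_) hquart
    rw [← hs100]
    ring
  have hCabs : C * s ^ 50 ≤ |C| * s ^ 50 :=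
    mul_le_mul_of_nonneg_right (le_abs_self C) (by positivity)
  refine ⟨K, b, s ^ 46, s ^ 51, by positivity, by positivity, hleN, ?_, ?_, ?_, ?_⟩
  · have : (N₀ : ℝ) ≤ ((n - K * b : ℕ) : ℝ) := by
      rw [Nat.cast_sub (by omega), Nat.cast_mul]
      have h1 : s ≤ (n : ℝ) := by
        rw [← hs100]
        exact hs1' 100 (by norm_num)
      linarith
    exact_mod_cast this
  · rw [hsqrt]
    have h1 : (2 * (|C| + 2)) * (s ^ 50 / 2) ≤ (2 * (|C| + 2)) * √((n : ℝ) - K * b) :=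
      mul_le_mul_of_nonneg_left hsqrt2 (by positivity)
    have h2 : s ^ 46 ≤ s ^ 50 := hmono (by norm_num)
    have h3 := hp 50
    linarith
  · rw [hsqrt]
    have h1 : s * s ^ 51 = s ^ 52 := by ring
    have h2 : (|C| + 3) * s ^ 51 ≤ s * s ^ 51 := mul_le_mul_of_nonneg_right sC (by positivity)
    have h3 : |C| * s ^ 50 ≤ |C| * s ^ 51 :=
      mul_le_mul_of_nonneg_left (hmono (by norm_num)) (abs_nonneg C)
    have h4 := hp 51
    linarith
  · refine le_trans ?_ sE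
    set c : ℝ := min ε (1 / 2) with hc
    have hc1 : c ≤ ε := min_le_left _ _
    have hc2 : c ≤ 1 / 2 := min_le_right _ _
    have hc0 : 0 < c := lt_min hε (by norm_num)
    have hE0 : 0 < Real.exp (-c * s) := Real.exp_pos _
    -- first term
    have t1 : (n : ℝ) * (2 * Real.exp (-(2 * (s ^ 51) ^ 2 / n))) ≤
        2 * (s ^ 382 * Real.exp (-c * s)) := by
      have e1 : 2 * (s ^ 51) ^ 2 / (n : ℝ) = 2 * s ^ 2 := by
        rw [← hs100]
        field_simp
      have e2 : Real.exp (-(2 * s ^ 2)) ≤ Real.exp (-c * s) := by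
        apply Real.exp_le_exp.2
        have : s ≤ s ^ 2 := hs1' 2 (by norm_num)
        nlinarith
      rw [e1, ← hs100]
      have h1 : s ^ 100 ≤ s ^ 382 := hmono (by norm_num)
      have h2 : s ^ 100 * Real.exp (-(2 * s ^ 2)) ≤ s ^ 382 * Real.exp (-c * s) :=
        mul_le_mul h1 e2 (Real.exp_pos _).le (by positivity)
      linarith
    have t2 : (n : ℝ) ^ 3 * (K * (1 - ε) ^ b) ≤ 2 * (s ^ 382 * Real.exp (-c * s)) := by
      have e1 : (1 - ε) ^ b ≤ Real.exp (-c * s) := by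
        calc (1 - ε) ^ b ≤ (Real.exp (-ε)) ^ b :=
              pow_le_pow_left₀ (by linarith) (by linarith [Real.add_one_le_exp (-ε)]) b
          _ = Real.exp (-(ε * b)) := by
              rw [← Real.exp_nat_mul]
              congr 1
              ring
          _ ≤ Real.exp (-c * s) := by
              apply Real.exp_le_exp.2
              have h1 : s ≤ (b : ℝ) := le_trans (hs1' 30 (by norm_num)) hb1
              have h2 : c * s ≤ ε * b := mul_le_mul hc1 h1 hs0 hε.le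
              linarith
      have e2 : (K : ℝ) * (1 - ε) ^ b ≤ (2 * s ^ 52) * Real.exp (-c * s) :=
        mul_le_mul hK2 e1 (pow_nonneg (by linarith) _) (by positivity)
      have e3 : (n : ℝ) ^ 3 = s ^ 300 := by
        rw [← hs100]
        ring
      rw [e3]
      calc s ^ 300 * (K * (1 - ε) ^ b) ≤ s ^ 300 * ((2 * s ^ 52) * Real.exp (-c * s)) :=
            mul_le_mul_of_nonneg_left e2 (by positivity)
        _ = 2 * (s ^ 352 * Real.exp (-c * s)) := by ring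
        _ ≤ 2 * (s ^ 382 * Real.exp (-c * s)) := by
            have h1 : s ^ 352 ≤ s ^ 382 := hmono (by norm_num)
            have := mul_le_mul_of_nonneg_right h1 hE0.le
            linarith
    have t3 : (n : ℝ) ^ 3 * (((K * b : ℕ) : ℝ) *
        (2 * Real.exp (-(2 * (s ^ 46) ^ 2 / ((K * b : ℕ) : ℝ))))) ≤
        8 * (s ^ 382 * Real.exp (-c * s)) := by
      rw [Nat.cast_mul]
      have hKb0 : 0 < (K : ℝ) * b := lt_of_lt_of_le (by positivity) hKb1
      have e1 : Real.exp (-(2 * (s ^ 46) ^ 2 / ((K : ℝ) * b))) ≤ Real.exp (-c * s) := by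
        apply Real.exp_le_exp.2
        have h1 : s / 2 ≤ 2 * (s ^ 46) ^ 2 / ((K : ℝ) * b) := by
          rw [le_div_iff₀ hKb0]
          have h2 : s / 2 * ((K : ℝ) * b) ≤ s / 2 * (4 * s ^ 82) :=
            mul_le_mul_of_nonneg_left hKb (by positivity)
          have h3 : s ^ 83 ≤ s ^ 92 := hmono (by norm_num)
          have h4 : s / 2 * (4 * s ^ 82) = 2 * s ^ 83 := by ring
          have h5 : 2 * (s ^ 46) ^ 2 = 2 * s ^ 92 := by ring
          linarith
        have h2 : c * s ≤ 1 / 2 * s := mul_le_mul_of_nonneg_right hc2 hs0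
        linarith
      have e2 : (K : ℝ) * b * (2 * Real.exp (-(2 * (s ^ 46) ^ 2 / ((K : ℝ) * b)))) ≤
          (4 * s ^ 82) * (2 * Real.exp (-c * s)) :=
        mul_le_mul hKb (by linarith) (by positivity) (by positivity)
      have e3 : (n : ℝ) ^ 3 = s ^ 300 := by
        rw [← hs100]
        ring
      rw [e3]
      calc s ^ 300 * ((K : ℝ) * b * (2 * Real.exp (-(2 * (s ^ 46) ^ 2 / ((K : ℝ) * b)))))
          ≤ s ^ 300 * ((4 * s ^ 82) * (2 * Real.exp (-c * s))) :=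
            mul_le_mul_of_nonneg_left e2 (by positivity)
        _ = 8 * (s ^ 382 * Real.exp (-c * s)) := by ring
    rw [mul_add]
    linarith

lemma dgP_add {n : ℕ} (H : SimpleGraph (Fin n)) (i : Fin n) (P : Fin n → Prop)
    (S : Finset (Fin n)) (hS : ∀ j ∈ S, H.Adj i j ∧ ¬ P j) :
    dgP H univ i P + S.card ≤ (nb H i).card := by
  classical
  unfold dgP
  rw [← Finset.card_union_of_disjoint]
  · refine Finset.card_le_card fun j hj => ?_
    rw [Finset.mem_union] at hj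
    simp only [nb, Finset.mem_filter, Finset.mem_univ, true_and]
    rcases hj with hj | hj
    · rw [Finset.mem_filter] at hj
      exact hj.2.1
    · exact (hS j hj).1
  · rw [Finset.disjoint_left]
    intro j hj1 hj2
    rw [Finset.mem_filter] at hj1
    exact (hS j hj2).2 hj1.2.2

theorem t_R1 : J_SUCC → J_BLOCK → J_INNER → J_R1 := by
  intro hS hB hI C δ hδ
  classical
  obtain ⟨ε₀, hε₀, N₀, hS'⟩ := hS (2 * (|C| + 2))
  set ε : ℝ := min ε₀ 1 with hε
  have hε0 : 0 < ε := lt_min hε₀ one_pos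
  have hε1 : ε ≤ 1 := min_le_right _ _
  obtain ⟨n₀, hn₀⟩ := num C δ ε N₀ hδ hε0 hε1
  refine ⟨n₀, fun n hn d hd => ?_⟩
  obtain ⟨K, b, t, t', ht, ht', hKb, hN, hC1, hC2, hE⟩ := hn₀ n hn
  -- the sets `A`
  have hAex : ∀ p : Fin n × Fin n × Fin n, ∃ A : Finset (Fin n), p.1 ∉ A ∧ p.2.1 ∉ A ∧
      p.2.2 ∉ A ∧ A.card = K * b := by
    intro p
    have h1 : ({p.1, p.2.1, p.2.2} : Finset (Fin n)).card ≤ 3 := Finset.card_le_three
    have h2 : (({p.1, p.2.1, p.2.2} : Finset (Fin n))ᶜ).card =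
        n - ({p.1, p.2.1, p.2.2} : Finset (Fin n)).card := by
      rw [Finset.card_compl, Fintype.card_fin]
    obtain ⟨A, hA1, hA2⟩ := Finset.exists_subset_card_eq
      (s := (({p.1, p.2.1, p.2.2} : Finset (Fin n))ᶜ)) (n := K * b) (by omega)
    refine ⟨A, fun h => ?_, fun h => ?_, fun h => ?_, hA2⟩
    · have := hA1 h
      simp at this
    · have := hA1 h
      simp at this
    · have := hA1 h
      simp at this
  choose A hAx hAy hAi hAc using hAex
  set T : ℝ := (d : ℝ) - 1 - ((K * b : ℕ) : ℝ) / 2 - t with hT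
  have hAcc : ∀ p, ((A p)ᶜ).card = n - K * b := fun p => by
    rw [Finset.card_compl, Fintype.card_fin, hAc]
  set G : ℝ := (Fintype.card (SimpleGraph (Fin n)) : ℝ) with hG
  have hG0 : 0 ≤ G := Nat.cast_nonneg _
  -- the exceptional sets
  set B2 : Fin n × Fin n × Fin n → SimpleGraph (Fin n) → Prop := fun p H =>
    p.2.2 ≠ p.1 ∧ p.2.2 ≠ p.2.1 ∧
    cnt (fun v : Fin n => v ∈ A p ∧ H.Adj v p.2.2 ∧ ¬ H.Adj v p.1 ∧ ¬ H.Adj v p.2.1 ∧
      ((nb H v \ A p).card : ℝ) ≤ T) < K with hB2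
  set B3 : Fin n × Fin n × Fin n → SimpleGraph (Fin n) → Prop := fun p H =>
    ∃ v ∈ A p, ((A p).card : ℝ) / 2 + t ≤ ((nb H v ∩ A p).card : ℝ) with hB3
  set B1 : SimpleGraph (Fin n) → Prop := fun H =>
    ∃ v ∈ (univ : Finset (Fin n)), ((univ : Finset (Fin n)).card : ℝ) / 2 + t' ≤
      ((nb H v ∩ univ).card : ℝ) with hB1
  have hB1c : cnt B1 ≤ ((n : ℝ) * (2 * Real.exp (-(2 * t' ^ 2 / n)))) * G := by
    have h := hI n univ t' ht'
    simpa [hB1, Finset.card_univ, Fintype.card_fin] using h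
  have hB3c : ∀ p, cnt (B3 p) ≤
      (((K * b : ℕ) : ℝ) * (2 * Real.exp (-(2 * t ^ 2 / ((K * b : ℕ) : ℝ))))) * G := by
    intro p
    have h := hI n (A p) t ht
    rw [hAc p] at h
    simpa only [hB3, hAc p] using h
  have hB2c : ∀ p, cnt (B2 p) ≤ (K * (1 - ε) ^ b) * G := by
    intro p
    by_cases hp : p.2.2 ≠ p.1 ∧ p.2.2 ≠ p.2.1
    · have hsucc := hS' n (A p) p.2.2 p.1 p.2.1 T (hAi p) (hAx p) (hAy p) hp.1 hp.2
        (by rw [hAcc p]; exact hN) (by
          rw [hAcc p, Nat.cast_sub (by omega)]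
          rw [Nat.cast_mul]
          rw [hT, Nat.cast_mul]
          linarith)
      have hsucc' : ε * 2 ^ ((A p)ᶜ).card ≤ cnt (fun s : Finset (Fin n) => s ⊆ (A p)ᶜ ∧
          p.2.2 ∈ s ∧ p.1 ∉ s ∧ p.2.1 ∉ s ∧ (s.card : ℝ) ≤ T) := by
        refine le_trans ?_ hsucc
        exact mul_le_mul_of_nonneg_right (min_le_left _ _) (by positivity)
      have h := hB n K b (A p) p.2.2 p.1 p.2.1 T ε (hAi p) (hAx p) (hAy p) (hAc p) hε0.le hε1
        hsucc'
      refine le_trans (cnt_mono fun H hH => ?_) h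
      exact hH.2.2
    · have h0 : cnt (B2 p) ≤ 0 := by
        rw [cnt_eq_sum]
        apply le_of_eq
        apply Finset.sum_eq_zero
        intro H _
        rw [if_neg]
        exact fun h => hp ⟨h.1, h.2.1⟩
      refine le_trans h0 ?_
      have : 0 ≤ (1 - ε) ^ b := pow_nonneg (by linarith) _
      positivity
  -- the union
  have hmain : ∀ H : SimpleGraph (Fin n), ¬ R1 n d H →
      (B1 H ∨ ∃ p ∈ (univ : Finset (Fin n × Fin n × Fin n)), (B2 p H ∨ B3 p H)) := by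
    intro H hH
    by_contra hcon
    push Not at hcon
    obtain ⟨c1, c2⟩ := hcon
    apply hH
    intro x y i hix hiy
    right
    obtain ⟨c3, c4⟩ := c2 (x, y, i) (Finset.mem_univ _)
    set p : Fin n × Fin n × Fin n := (x, y, i) with hp
    have c3' : (K : ℝ) ≤ cnt (fun v : Fin n => v ∈ A p ∧ H.Adj v i ∧ ¬ H.Adj v x ∧ ¬ H.Adj v y ∧
        ((nb H v \ A p).card : ℝ) ≤ T) := by
      by_contra hlt
      push Not at hlt
      exact c3 ⟨hix, hiy, hlt⟩
    have c4' : ∀ v ∈ A p, ((nb H v ∩ A p).card : ℝ) < ((K * b : ℕ) : ℝ) / 2 + t := by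
      intro v hv
      by_contra hlt
      push Not at hlt
      refine c4 ⟨v, hv, ?_⟩
      rw [hAc p]
      exact hlt
    have c1' : ∀ v, ((nb H v).card : ℝ) < (n : ℝ) / 2 + t' := by
      intro v
      by_contra hlt
      push Not at hlt
      refine c1 ⟨v, Finset.mem_univ _, ?_⟩
      rw [Finset.card_univ, Fintype.card_fin, Finset.inter_univ]
      exact hlt
    set S : Finset (Fin n) := univ.filter (fun v : Fin n => v ∈ A p ∧ H.Adj v i ∧ ¬ H.Adj v x ∧
      ¬ H.Adj v y ∧ ((nb H v \ A p).card : ℝ) ≤ T) with hSdef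
    have c5 : (K : ℝ) ≤ S.card := by
      rw [cnt_eq_card] at c3'
      exact c3'
    have hnbr : ∀ v, nbr H univ v = nb H v := by
      intro v
      ext j
      rw [mem_nbr]
      simp [nb]
    have hdeg : ∀ v ∈ S, ¬ d ≤ (nbr H univ v).card := by
      intro v hv hdv
      rw [hSdef, Finset.mem_filter] at hv
      obtain ⟨-, hvA, -, -, -, hvT⟩ := hv
      have h1 := c4' v hvA
      have h2 : (nb H v).card = (nb H v \ A p).card + (nb H v ∩ A p).card := by
        rw [Finset.card_sdiff_add_card_inter]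
      have h3 : (d : ℝ) ≤ (nb H v).card := by
        rw [hnbr] at hdv
        exact_mod_cast hdv
      rw [h2, Nat.cast_add] at h3
      rw [hT] at hvT
      linarith
    have hcard : dgP H univ i (fun j => H.Adj x j ∨ H.Adj y j ∨ d ≤ (nbr H univ j).card) + S.card
        ≤ (nb H i).card := by
      refine dgP_add H i _ S fun j hj => ?_
      have h1 := hdeg j hj
      rw [hSdef, Finset.mem_filter] at hj
      obtain ⟨-, -, h4, h2, h3, -⟩ := hj
      refine ⟨h4.symm, ?_⟩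
      rintro (h | h | h)
      · exact h2 h.symm
      · exact h3 h.symm
      · exact h1 h
    have h6 := c1' i
    have h7 : (dgP H univ i (fun j => H.Adj x j ∨ H.Adj y j ∨ d ≤ (nbr H univ j).card) : ℝ) +
        S.card ≤ (nb H i).card := by exact_mod_cast hcard
    have h8 : (dgP H univ i (fun j => H.Adj x j ∨ H.Adj y j ∨ d ≤ (nbr H univ j).card) : ℝ) + 2
        ≤ d := by linarith
    exact_mod_cast h8
  calc cnt (fun H : SimpleGraph (Fin n) => ¬ R1 n d H)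
      ≤ cnt (fun H => B1 H ∨ ∃ p ∈ (univ : Finset (Fin n × Fin n × Fin n)), (B2 p H ∨ B3 p H)) :=
        cnt_mono hmain
    _ ≤ cnt B1 + cnt (fun H => ∃ p ∈ (univ : Finset (Fin n × Fin n × Fin n)),
          (B2 p H ∨ B3 p H)) := cnt_or_le _ _
    _ ≤ cnt B1 + ∑ p ∈ (univ : Finset (Fin n × Fin n × Fin n)),
          cnt (fun H => B2 p H ∨ B3 p H) := by
        have := cnt_exists_le (univ : Finset (Fin n × Fin n × Fin n))
          (fun p H => B2 p H ∨ B3 p H)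
        linarith
    _ ≤ cnt B1 + ∑ p ∈ (univ : Finset (Fin n × Fin n × Fin n)),
          ((K * (1 - ε) ^ b) * G +
            (((K * b : ℕ) : ℝ) * (2 * Real.exp (-(2 * t ^ 2 / ((K * b : ℕ) : ℝ))))) * G) := by
        have : ∑ p ∈ (univ : Finset (Fin n × Fin n × Fin n)), cnt (fun H => B2 p H ∨ B3 p H) ≤
            ∑ p ∈ (univ : Finset (Fin n × Fin n × Fin n)),
          ((K * (1 - ε) ^ b) * G +
            (((K * b : ℕ) : ℝ) * (2 * Real.exp (-(2 * t ^ 2 / ((K * b : ℕ) : ℝ))))) * G) := by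
          apply Finset.sum_le_sum
          intro p _
          exact le_trans (cnt_or_le _ _) (add_le_add (hB2c p) (hB3c p))
        linarith
    _ ≤ ((n : ℝ) * (2 * Real.exp (-(2 * t' ^ 2 / n)))) * G + (n : ℝ) ^ 3 *
          ((K * (1 - ε) ^ b) * G +
            (((K * b : ℕ) : ℝ) * (2 * Real.exp (-(2 * t ^ 2 / ((K * b : ℕ) : ℝ))))) * G) := by
        rw [Finset.sum_const, Finset.card_univ, nsmul_eq_mul]
        simp only [Fintype.card_prod, Fintype.card_fin]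
        have e : ((n * (n * n) : ℕ) : ℝ) = (n : ℝ) ^ 3 := by
          push_cast
          ring
        rw [e]
        linarith
    _ = ((n : ℝ) * (2 * Real.exp (-(2 * t' ^ 2 / n))) + (n : ℝ) ^ 3 *
        (K * (1 - ε) ^ b + ((K * b : ℕ) : ℝ) * (2 * Real.exp (-(2 * t ^ 2 / ((K * b : ℕ) : ℝ)))))) *
          G := by ring
    _ ≤ δ * G := mul_le_mul_of_nonneg_right hE hG0

end Pool.Agent.Run7.h11.GC
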