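import Pool.Agent.Run7.h207.GC.Iface

set_option autoImplicit false

namespace Pool.Agent.Run7.h11.GC

open Finset
open Pool.Agent.Run7.h207.GC

section
variable {V : Type} {H : SimpleGraph V} {d n : ℕ} {D : Finset V}

lemma nbl_le_nbr {l : List V} (i : V) (hl : ∀ j ∈ l, j ∈ D) :
    (nbl H l i).card ≤ (nbr H D i).card := by
  refine Finset.card_le_card fun j hj => ?_
  rw [mem_nbl] at hj
  rw [mem_nbr]
  exact ⟨hl j hj.1, hj.2⟩

lemma nbl_le_dgP {l : List V} (i : V) (Q : V → Prop) (hl : ∀ j ∈ l, j ∈ D) (hQ : ∀ j ∈ l, Q j) :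
    (nbl H l i).card ≤ dgP H D i Q := by
  classical
  unfold dgP
  refine Finset.card_le_card fun j hj => ?_
  rw [mem_nbl] at hj
  rw [Finset.mem_filter]
  exact ⟨hl j hj.1, hj.2, hQ j hj.1⟩

lemma nbl_mono {l l' : List V} (i : V) (h : ∀ j ∈ l, j ∈ l') :
    (nbl H l i).card ≤ (nbl H l' i).card := by
  refine Finset.card_le_card fun j hj => ?_
  rw [mem_nbl] at hj ⊢
  exact ⟨h j hj.1, hj.2⟩

lemma Adm.nodup {l : List V} (h : Adm H d l) : l.Nodup := by
  induction l with
  | nil => exact List.nodup_nil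
  | cons i l ih => exact List.nodup_cons.2 ⟨h.1, ih h.2.2⟩

lemma adm_q {Q : V → Prop} {q : List V} (hn : q.Nodup) (hD : ∀ j ∈ q, j ∈ D)
    (hQ : ∀ j ∈ q, Q j) (hq : ∀ i ∈ q, dgP H D i Q + 1 ≤ d) : Adm H d q := by
  induction q with
  | nil => trivial
  | cons i q ih =>
    rw [List.nodup_cons] at hn
    refine ⟨hn.1, ?_, ih hn.2 (fun j hj => hD j (List.mem_cons_of_mem _ hj))
      (fun j hj => hQ j (List.mem_cons_of_mem _ hj))
      (fun j hj => hq j (List.mem_cons_of_mem _ hj))⟩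
    have h1 := nbl_le_dgP (H := H) (D := D) i Q (l := q)
      (fun j hj => hD j (List.mem_cons_of_mem _ hj)) (fun j hj => hQ j (List.mem_cons_of_mem _ hj))
    have h2 := hq i List.mem_cons_self
    omega

lemma adm_cq {Q : V → Prop} {c q : List V} (hn : (c ++ q).Nodup) (hD : ∀ j ∈ c ++ q, j ∈ D)
    (hc : ∀ i ∈ c, (nbr H D i).card + 1 ≤ d)
    (hQ : ∀ j ∈ q, Q j) (hq : ∀ i ∈ q, dgP H D i Q + 1 ≤ d) : Adm H d (c ++ q) := by
  induction c with
  | nil => exact adm_q hn hD hQ hq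
  | cons i c ih =>
    rw [List.cons_append, List.nodup_cons] at hn
    have hD' : ∀ j ∈ c ++ q, j ∈ D := fun j hj => hD j (List.mem_cons_of_mem _ hj)
    have h1 := nbl_le_nbr (H := H) (D := D) i hD'
    have h2 := hc i List.mem_cons_self
    have h3 : (nbl H (c ++ q) i).card + 1 ≤ d := by omega
    exact ⟨hn.1, h3, ih hn.2 hD' (fun j hj => hc j (List.mem_cons_of_mem _ hj))⟩

end

theorem t_RO : J_RO := by
  intro V H d n D R hrefl htrans hcons hswap l c q Q hl hlD hln hperm hcQ hqQ hc hq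
  classical
  -- (1)
  have s1 : ∀ q₁ q₂ : List V, q₁.Perm q₂ → q₁.Nodup → (∀ j ∈ q₁, j ∈ D) → (∀ j ∈ q₁, Q j) →
      (∀ i ∈ q₁, dgP H D i Q + 1 ≤ d) → q₁.length ≤ n → R q₁ q₂ := by
    intro q₁ q₂ hp
    induction hp with
    | nil => intro _ _ _ _ h; exact hrefl [] trivial (fun j hj => by simp at hj) h
    | @cons x l₁ l₂ hp ih =>
      intro h1 h2 h3 h4 h5
      have hp' := hp.cons x
      have a1 := adm_q h1 h2 h3 h4
      have a2 : Adm H d (x :: l₂) := adm_q (hp'.nodup_iff.1 h1)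
        (fun j hj => h2 j (hp'.mem_iff.2 hj)) (fun j hj => h3 j (hp'.mem_iff.2 hj))
        (fun j hj => h4 j (hp'.mem_iff.2 hj))
      refine hcons x l₁ l₂ a1 a2 hp h2 h5 (ih (List.nodup_cons.1 h1).2
        (fun j hj => h2 j (List.mem_cons_of_mem _ hj))
        (fun j hj => h3 j (List.mem_cons_of_mem _ hj))
        (fun j hj => h4 j (List.mem_cons_of_mem _ hj)) ?_)
      simp only [List.length_cons] at h5
      omega
    | swap x y l =>
      intro h1 h2 h3 h4 h5
      have hp' := List.Perm.swap x y l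
      have a1 := adm_q h1 h2 h3 h4
      have a2 : Adm H d (x :: y :: l) := adm_q (hp'.nodup_iff.1 h1)
        (fun j hj => h2 j (hp'.mem_iff.2 hj)) (fun j hj => h3 j (hp'.mem_iff.2 hj))
        (fun j hj => h4 j (hp'.mem_iff.2 hj))
      exact hswap x y l a1 a2 h2 h5
    | @trans l₁ l₂ l₃ p1 p2 ih1 ih2 =>
      intro h1 h2 h3 h4 h5
      have g1 := p1.nodup_iff.1 h1
      have g2 : ∀ j ∈ l₂, j ∈ D := fun j hj => h2 j (p1.mem_iff.2 hj)
      have g3 : ∀ j ∈ l₂, Q j := fun j hj => h3 j (p1.mem_iff.2 hj)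
      have g4 : ∀ i ∈ l₂, dgP H D i Q + 1 ≤ d := fun j hj => h4 j (p1.mem_iff.2 hj)
      have g5 : l₂.length ≤ n := p1.length_eq ▸ h5
      exact htrans l₁ l₂ l₃ (adm_q h1 h2 h3 h4) (adm_q g1 g2 g3 g4)
        (adm_q (p2.nodup_iff.1 g1) (fun j hj => g2 j (p2.mem_iff.2 hj))
          (fun j hj => g3 j (p2.mem_iff.2 hj)) (fun j hj => g4 j (p2.mem_iff.2 hj)))
        p1 p2 h2 h5 (ih1 h1 h2 h3 h4 h5) (ih2 g1 g2 g3 g4 g5)
  -- (2)
  have s2 : ∀ c q₁ q₂ : List V, q₁.Perm q₂ → (c ++ q₁).Nodup → (∀ j ∈ c ++ q₁, j ∈ D) →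
      (∀ i ∈ c, (nbr H D i).card + 1 ≤ d) → (∀ j ∈ q₁, Q j) →
      (∀ i ∈ q₁, dgP H D i Q + 1 ≤ d) → (c ++ q₁).length ≤ n → R (c ++ q₁) (c ++ q₂) := by
    intro c q₁ q₂ hp
    induction c with
    | nil => intro h1 h2 _ h3 h4 h5; exact s1 q₁ q₂ hp h1 h2 h3 h4 h5
    | cons i c ih =>
      intro h1 h2 h3 h4 h5 h6
      have hp' : (c ++ q₁).Perm (c ++ q₂) := hp.append_left c
      have hp'' : (i :: c ++ q₁).Perm (i :: c ++ q₂) := hp.append_left (i :: c)
      have a1 : Adm H d (i :: c ++ q₁) := adm_cq h1 h2 h3 h4 h5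
      have a2 : Adm H d (i :: c ++ q₂) := adm_cq (hp''.nodup_iff.1 h1)
        (fun j hj => h2 j (hp''.mem_iff.2 hj)) h3 (fun j hj => h4 j (hp.mem_iff.2 hj))
        (fun j hj => h5 j (hp.mem_iff.2 hj))
      refine hcons i _ _ a1 a2 hp' h2 h6 (ih (List.nodup_cons.1 h1).2
        (fun j hj => h2 j (List.mem_cons_of_mem _ hj))
        (fun j hj => h3 j (List.mem_cons_of_mem _ hj)) h4 h5 ?_)
      simp only [List.cons_append, List.length_cons] at h6
      omega
  -- (3)
  have s3 : ∀ c₁ c₂ : List V, c₁.Perm c₂ → ∀ q : List V, (c₁ ++ q).Nodup →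
      (∀ j ∈ c₁ ++ q, j ∈ D) →
      (∀ i ∈ c₁, (nbr H D i).card + 1 ≤ d) → (∀ j ∈ q, Q j) →
      (∀ i ∈ q, dgP H D i Q + 1 ≤ d) → (c₁ ++ q).length ≤ n → R (c₁ ++ q) (c₂ ++ q) := by
    intro c₁ c₂ hp q
    induction hp with
    | nil => intro h1 h2 h3 h4 h5 h6; exact hrefl _ (adm_cq h1 h2 h3 h4 h5) h2 h6
    | @cons x l₁ l₂ hp ih =>
      intro h1 h2 h3 h4 h5 h6
      have hp' : (l₁ ++ q).Perm (l₂ ++ q) := hp.append_right q
      have hp0 := hp.cons x
      have hp'' : (x :: l₁ ++ q).Perm (x :: l₂ ++ q) := hp0.append_right q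
      have a1 : Adm H d (x :: l₁ ++ q) := adm_cq h1 h2 h3 h4 h5
      have a2 : Adm H d (x :: l₂ ++ q) := adm_cq (hp''.nodup_iff.1 h1)
        (fun j hj => h2 j (hp''.mem_iff.2 hj)) (fun j hj => h3 j (hp0.mem_iff.2 hj)) h4 h5
      refine hcons x _ _ a1 a2 hp' h2 h6 (ih (List.nodup_cons.1 h1).2
        (fun j hj => h2 j (List.mem_cons_of_mem _ hj))
        (fun j hj => h3 j (List.mem_cons_of_mem _ hj)) h4 h5 ?_)
      simp only [List.cons_append, List.length_cons] at h6
      omega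
    | swap x y l =>
      intro h1 h2 h3 h4 h5 h6
      have hp0 := List.Perm.swap x y l
      have hp'' : (y :: x :: l ++ q).Perm (x :: y :: l ++ q) := hp0.append_right q
      have a1 : Adm H d (y :: x :: l ++ q) := adm_cq h1 h2 h3 h4 h5
      have a2 : Adm H d (x :: y :: l ++ q) := adm_cq (hp''.nodup_iff.1 h1)
        (fun j hj => h2 j (hp''.mem_iff.2 hj)) (fun j hj => h3 j (hp0.mem_iff.2 hj)) h4 h5
      exact hswap x y (l ++ q) a1 a2 h2 h6
    | @trans l₁ l₂ l₃ p1 p2 ih1 ih2 =>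
      intro h1 h2 h3 h4 h5 h6
      have r1 : (l₁ ++ q).Perm (l₂ ++ q) := p1.append_right q
      have r2 : (l₂ ++ q).Perm (l₃ ++ q) := p2.append_right q
      have g1 := r1.nodup_iff.1 h1
      have g2 : ∀ j ∈ l₂ ++ q, j ∈ D := fun j hj => h2 j (r1.mem_iff.2 hj)
      have g3 : ∀ i ∈ l₂, (nbr H D i).card + 1 ≤ d := fun j hj => h3 j (p1.mem_iff.2 hj)
      have g6 : (l₂ ++ q).length ≤ n := r1.length_eq ▸ h6
      exact htrans _ _ _ (adm_cq h1 h2 h3 h4 h5) (adm_cq g1 g2 g3 h4 h5)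
        (adm_cq (r2.nodup_iff.1 g1) (fun j hj => g2 j (r2.mem_iff.2 hj))
          (fun j hj => g3 j (p2.mem_iff.2 hj)) h4 h5)
        r1 r2 h2 h6 (ih1 h1 h2 h3 h4 h5 h6) (ih2 g1 g2 g3 h4 h5 g6)
  -- (4)
  have s4 : ∀ (i : V) (c q : List V), Adm H d (i :: (c ++ q)) → Q i → dgP H D i Q + 1 ≤ d →
      (∀ j ∈ i :: (c ++ q), j ∈ D) →
      (∀ i ∈ c, (nbr H D i).card + 1 ≤ d) → (∀ j ∈ q, Q j) →
      (∀ i ∈ q, dgP H D i Q + 1 ≤ d) → (i :: (c ++ q)).length ≤ n →
      R (i :: (c ++ q)) (c ++ i :: q) := by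
    intro i c q
    induction c with
    | nil => intro h1 _ _ h2 _ _ _ h6; exact hrefl _ h1 h2 h6
    | cons j c ih =>
      intro h1 hQi hqi h2 h3 h4 h5 h6
      have hnd : (i :: j :: (c ++ q)).Nodup := Adm.nodup h1
      have hp : (i :: j :: (c ++ q)).Perm (j :: i :: (c ++ q)) := List.Perm.swap j i (c ++ q)
      have hp2 : (i :: (c ++ q)).Perm (c ++ i :: q) := List.perm_middle.symm
      have hp3 : (j :: i :: (c ++ q)).Perm (j :: (c ++ i :: q)) := hp2.cons j
      have hnd' := hp.nodup_iff.1 hnd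
      have hnd'' := hp3.nodup_iff.1 hnd'
      have h2' : ∀ k ∈ j :: i :: (c ++ q), k ∈ D := fun k hk => h2 k (hp.mem_iff.2 hk)
      have h2'' : ∀ k ∈ j :: (c ++ i :: q), k ∈ D := fun k hk => h2' k (hp3.mem_iff.2 hk)
      have a1 : Adm H d (i :: (c ++ q)) := by
        refine ⟨fun h => h1.1 (List.mem_cons_of_mem _ h), ?_, h1.2.2.2.2⟩
        have e1 := nbl_mono (H := H) i (l := c ++ q) (l' := j :: c ++ q)
          (fun k hk => List.mem_cons_of_mem _ hk)
        have e2 := h1.2.1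
        omega
      have a2 : Adm H d (j :: i :: (c ++ q)) := by
        refine ⟨(List.nodup_cons.1 hnd').1, ?_, a1⟩
        have e1 := nbl_le_nbr (H := H) (D := D) j (l := i :: (c ++ q))
          (fun k hk => h2' k (List.mem_cons_of_mem _ hk))
        have e2 := h3 j List.mem_cons_self
        omega
      have a3 : Adm H d (j :: (c ++ i :: q)) := by
        refine adm_cq (c := j :: c) (q := i :: q) (Q := Q) hnd'' h2'' h3 ?_ ?_
        · intro k hk
          rcases List.mem_cons.1 hk with rfl | hk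
          · exact hQi
          · exact h4 k hk
        · intro k hk
          rcases List.mem_cons.1 hk with rfl | hk
          · exact hqi
          · exact h5 k hk
      have h6' : (i :: (c ++ q)).length ≤ n := by
        simp only [List.cons_append, List.length_cons] at h6 ⊢
        omega
      have r1 : R (i :: j :: (c ++ q)) (j :: i :: (c ++ q)) :=
        hswap j i (c ++ q) h1 a2 h2 h6
      have r2 : R (i :: (c ++ q)) (c ++ i :: q) := ih a1 hQi hqi
        (fun k hk => h2' k (List.mem_cons_of_mem _ hk))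
        (fun k hk => h3 k (List.mem_cons_of_mem _ hk)) h4 h5 h6'
      have h6'' : (j :: i :: (c ++ q)).length ≤ n := hp.length_eq ▸ h6
      have r3 : R (j :: i :: (c ++ q)) (j :: (c ++ i :: q)) :=
        hcons j _ _ a2 a3 hp2 h2' h6'' r2
      exact htrans _ _ _ h1 a2 a3 hp hp3 h2 h6 r1 r3
  -- (5)
  have s5 : ∀ l : List V, Adm H d l → (∀ j ∈ l, j ∈ D) → l.length ≤ n →
      (∀ i ∈ l, ¬ Q i → (nbr H D i).card + 1 ≤ d) → (∀ i ∈ l, Q i → dgP H D i Q + 1 ≤ d) →
      R l (l.filter (fun i => decide (¬ Q i)) ++ l.filter (fun i => decide (Q i))) := by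
    intro l
    induction l with
    | nil => intro h1 h2 h3 _ _; exact hrefl [] h1 h2 h3
    | cons i l ih =>
      intro h1 h2 h3 h4 h5
      have h2' : ∀ j ∈ l, j ∈ D := fun j hj => h2 j (List.mem_cons_of_mem _ hj)
      have h3' : l.length ≤ n := by
        simp only [List.length_cons] at h3
        omega
      have r := ih h1.2.2 h2' h3' (fun j hj => h4 j (List.mem_cons_of_mem _ hj))
        (fun j hj => h5 j (List.mem_cons_of_mem _ hj))
      set c₁ := l.filter (fun i => decide (¬ Q i)) with hc₁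
      set q₁ := l.filter (fun i => decide (Q i)) with hq₁
      have hp : l.Perm (c₁ ++ q₁) := by
        have := List.filter_append_perm (fun i => decide (Q i)) l
        refine (this.symm.trans ?_)
        refine List.perm_append_comm.trans ?_
        simp [hc₁, hq₁]
      have hp' := hp.cons i
      have hcc : ∀ j ∈ c₁, (nbr H D j).card + 1 ≤ d := fun j hj => by
        rw [hc₁, List.mem_filter] at hj
        exact h4 j (List.mem_cons_of_mem _ hj.1) (of_decide_eq_true hj.2)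
      have hqq : ∀ j ∈ q₁, Q j := fun j hj => by
        rw [hq₁, List.mem_filter] at hj
        exact of_decide_eq_true hj.2
      have hqd : ∀ j ∈ q₁, dgP H D j Q + 1 ≤ d := fun j hj => by
        rw [hq₁, List.mem_filter] at hj
        exact h5 j (List.mem_cons_of_mem _ hj.1) (of_decide_eq_true hj.2)
      have hnd := Adm.nodup h1
      have hnd' := hp'.nodup_iff.1 hnd
      have h2c : ∀ j ∈ i :: (c₁ ++ q₁), j ∈ D := fun j hj => h2 j (hp'.mem_iff.2 hj)
      have acq : Adm H d (c₁ ++ q₁) := adm_cq (List.nodup_cons.1 hnd').2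
        (fun j hj => h2c j (List.mem_cons_of_mem _ hj)) hcc hqq hqd
      have ai : Adm H d (i :: (c₁ ++ q₁)) := by
        refine ⟨(List.nodup_cons.1 hnd').1, ?_, acq⟩
        have e1 := nbl_mono (H := H) i (l := c₁ ++ q₁) (l' := l) (fun k hk => hp.mem_iff.2 hk)
        have e2 := h1.2.1
        omega
      have r1 : R (i :: l) (i :: (c₁ ++ q₁)) := hcons i _ _ h1 ai hp h2 h3 r
      by_cases hQi : Q i
      · have e1 : (i :: l).filter (fun i => decide (¬ Q i)) = c₁ := by
          rw [List.filter_cons_of_neg (by simpa using hQi)]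
        have e2 : (i :: l).filter (fun i => decide (Q i)) = i :: q₁ := by
          rw [List.filter_cons_of_pos (by simpa using hQi)]
        rw [e1, e2]
        have hdi := h5 i List.mem_cons_self hQi
        have hpm : (i :: (c₁ ++ q₁)).Perm (c₁ ++ i :: q₁) := List.perm_middle.symm
        have a3 : Adm H d (c₁ ++ i :: q₁) := by
          refine adm_cq (Q := Q) (hpm.nodup_iff.1 hnd') (fun j hj => h2c j (hpm.mem_iff.2 hj))
            hcc ?_ ?_
          · intro k hk
            rcases List.mem_cons.1 hk with rfl | hk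
            · exact hQi
            · exact hqq k hk
          · intro k hk
            rcases List.mem_cons.1 hk with rfl | hk
            · exact hdi
            · exact hqd k hk
        have h6 : (i :: (c₁ ++ q₁)).length ≤ n := hp'.length_eq ▸ h3
        exact htrans _ _ _ h1 ai a3 hp' hpm h2 h3 r1
          (s4 i c₁ q₁ ai hQi hdi h2c hcc hqq hqd h6)
      · have e1 : (i :: l).filter (fun i => decide (¬ Q i)) = i :: c₁ := by
          rw [List.filter_cons_of_pos (by simpa using hQi)]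
        have e2 : (i :: l).filter (fun i => decide (Q i)) = q₁ := by
          rw [List.filter_cons_of_neg (by simpa using hQi)]
        rw [e1, e2]
        exact r1
  -- final
  have hcl : ∀ i ∈ l, ¬ Q i → (nbr H D i).card + 1 ≤ d := by
    intro i hi hQ
    rcases List.mem_append.1 (hperm.mem_iff.1 hi) with h | h
    · exact hc i h
    · exact absurd (hqQ i h) hQ
  have hql : ∀ i ∈ l, Q i → dgP H D i Q + 1 ≤ d := by
    intro i hi hQ
    rcases List.mem_append.1 (hperm.mem_iff.1 hi) with h | h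
    · exact absurd hQ (hcQ i h)
    · exact hq i h
  have r5 := s5 l hl hlD hln hcl hql
  set c₀ := l.filter (fun i => decide (¬ Q i)) with hc₀
  set q₀ := l.filter (fun i => decide (Q i)) with hq₀
  have pc : c₀.Perm c := by
    have e := hperm.filter (fun i => decide (¬ Q i))
    have f1 : c.filter (fun i => decide (¬ Q i)) = c :=
      List.filter_eq_self.2 (fun i hi => by simpa using hcQ i hi)
    have f2 : q.filter (fun i => decide (¬ Q i)) = [] :=
      List.filter_eq_nil_iff.2 (fun i hi => by simpa using hqQ i hi)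
    rw [List.filter_append, f1, f2, List.append_nil] at e
    exact e
  have pq : q₀.Perm q := by
    have e := hperm.filter (fun i => decide (Q i))
    have f1 : c.filter (fun i => decide (Q i)) = [] :=
      List.filter_eq_nil_iff.2 (fun i hi => by simpa using hcQ i hi)
    have f2 : q.filter (fun i => decide (Q i)) = q :=
      List.filter_eq_self.2 (fun i hi => by simpa using hqQ i hi)
    rw [List.filter_append, f1, f2, List.nil_append] at e
    exact e
  have p1 : (c₀ ++ q₀).Perm (c₀ ++ q) := pq.append_left c₀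
  have p2 : (c₀ ++ q).Perm (c ++ q) := pc.append_right q
  have p0 : l.Perm (c₀ ++ q₀) := hperm.trans (p1.trans p2).symm
  have hnd := Adm.nodup hl
  have hn0 := p0.nodup_iff.1 hnd
  have hn1 := p1.nodup_iff.1 hn0
  have hn2 := p2.nodup_iff.1 hn1
  have hD0 : ∀ j ∈ c₀ ++ q₀, j ∈ D := fun j hj => hlD j (p0.mem_iff.2 hj)
  have hD1 : ∀ j ∈ c₀ ++ q, j ∈ D := fun j hj => hD0 j (p1.mem_iff.2 hj)
  have hD2 : ∀ j ∈ c ++ q, j ∈ D := fun j hj => hD1 j (p2.mem_iff.2 hj)
  have hc0 : ∀ i ∈ c₀, (nbr H D i).card + 1 ≤ d := fun i hi => hc i (pc.mem_iff.1 hi)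
  have hq0 : ∀ i ∈ q₀, dgP H D i Q + 1 ≤ d := fun i hi => hq i (pq.mem_iff.1 hi)
  have hQ0 : ∀ i ∈ q₀, Q i := fun i hi => hqQ i (pq.mem_iff.1 hi)
  have l0 : (c₀ ++ q₀).length ≤ n := p0.length_eq ▸ hln
  have l1 : (c₀ ++ q).length ≤ n := p1.length_eq ▸ l0
  have b0 : Adm H d (c₀ ++ q₀) := adm_cq hn0 hD0 hc0 hQ0 hq0
  have b1 : Adm H d (c₀ ++ q) := adm_cq hn1 hD1 hc0 hqQ hq
  have b2 : Adm H d (c ++ q) := adm_cq hn2 hD2 hc hqQ hq
  have r6 := s2 c₀ q₀ q pq hn0 hD0 hc0 hQ0 hq0 l0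
  have r7 := s3 c₀ c pc q hn1 hD1 hc0 hqQ hq l1
  exact htrans _ _ _ hl b0 b2 p0 (p1.trans p2) hlD hln r5
    (htrans _ _ _ b0 b1 b2 p1 p2 hD0 l0 r6 r7)

end Pool.Agent.Run7.h11.GC
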