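import Pool.Agent.Run7.h207.GC.Iface

set_option autoImplicit false

namespace Pool.Agent.Run7.h11.GC

open Finset Matrix
open Pool.Agent.Run7.h207.GC

section
variable {V : Type} {H : SimpleGraph V} {d : ℕ}

lemma reg_mem {Im : List V → Set (V → Fin d → ℝ)} (him : IsIm H d Im)
    {w : V → Fin d → ℝ} {l : List V} (hn : l.Nodup) (h : Reg H w l) : w ∈ Im l := by
  induction l with
  | nil => exact him.nil w
  | cons i l ih =>
    obtain ⟨ho, hl, hi⟩ := h
    have hn' := List.nodup_cons.1 hn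
    have h1 : w ∈ Im l := ih hn'.2 ⟨fun a ha b hb => ho a (List.mem_cons_of_mem _ ha) b
      (List.mem_cons_of_mem _ hb), hl⟩
    exact him.step i l w hn'.1 h1 hi
      (fun j hj hij => ho i List.mem_cons_self j (List.mem_cons_of_mem _ hj) hij)

lemma LI_congr {w w' : V → Fin d → ℝ} {S : Finset V} (h : ∀ i ∈ S, w i = w' i) (hw : LI w S) :
    LI w' S := by
  unfold LI at *
  exact hw.congr (fun i hi => h i hi)

lemma LIC_congr {w w' : V → Fin d → ℝ} {l : List V} (h : ∀ i ∈ l, w i = w' i)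
    (hw : LIC H w l) : LIC H w' l := by
  induction l with
  | nil => trivial
  | cons i l ih =>
    refine ⟨ih (fun j hj => h j (List.mem_cons_of_mem _ hj)) hw.1, LI_congr (fun j hj => ?_) hw.2⟩
    exact h j (List.mem_cons_of_mem _ (mem_nbl.1 hj).1)

/-- append two zero coordinates -/
def emb (e : ℕ) : (Fin e → ℝ) →ₗ[ℝ] (Fin (e + 2) → ℝ) where
  toFun v := fun k => if h : k.val < e then v ⟨k.val, h⟩ else 0
  map_add' v w := by
    ext k
    by_cases h : k.val < e <;> simp [h]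
  map_smul' c v := by
    ext k
    by_cases h : k.val < e <;> simp [h]

lemma emb_inj (e : ℕ) : Function.Injective (emb e) := by
  intro v w h
  ext k
  have := congrFun h ⟨k.val, by omega⟩
  simpa [emb, k.isLt] using this

lemma emb_dot (e : ℕ) (v w : Fin e → ℝ) : emb e v ⬝ᵥ emb e w = v ⬝ᵥ w := by
  simp only [dotProduct]
  rw [Fin.sum_univ_castSucc, Fin.sum_univ_castSucc]
  simp [emb]

lemma emb_single (e : ℕ) (v : Fin e → ℝ) (k : Fin (e + 2)) (hk : e ≤ k.val) :
    (Pi.single k 1 : Fin (e + 2) → ℝ) ⬝ᵥ emb e v = 0 := by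
  rw [single_one_dotProduct]
  simp [emb, not_lt.2 hk]

lemma single_dot (e : ℕ) (k k' : Fin (e + 2)) (h : k ≠ k') :
    (Pi.single k 1 : Fin (e + 2) → ℝ) ⬝ᵥ (Pi.single k' 1 : Fin (e + 2) → ℝ) = 0 := by
  rw [single_one_dotProduct, Pi.single_eq_of_ne h]

lemma LI_emb {e : ℕ} {w : V → Fin e → ℝ} {S : Finset V} (h : LI w S) :
    LI (fun v => emb e (w v)) S := by
  unfold LI at *
  exact h.map' (emb e) (LinearMap.ker_eq_bot.2 (emb_inj e))

/-- a unit vector orthogonal to the others is independent of them -/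
lemma LI_insert [DecidableEq V] {w : V → Fin d → ℝ} {S : Finset V} {x : V} (h : LI w S)
    (h0 : w x ⬝ᵥ w x ≠ 0) (ho : ∀ j ∈ S, w x ⬝ᵥ w j = 0) : LI w (insert x S) := by
  unfold LI at *
  rw [Finset.coe_insert]
  refine h.insert fun hx => h0 ?_
  have key : ∀ z ∈ Submodule.span ℝ (w '' (S : Set V)), w x ⬝ᵥ z = 0 := by
    intro z hz
    induction hz using Submodule.span_induction with
    | mem z hz =>
      obtain ⟨j, hj, rfl⟩ := hz
      exact ho j hj
    | zero => simp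
    | add a b _ _ ha hb => rw [dotProduct_add, ha, hb, add_zero]
    | smul c a _ ha => rw [dotProduct_smul, ha, smul_zero]
  exact key _ hx

end

theorem t_SWA : J_IM → J_PC → J_SWA := by
  intro hIM hPC V H d x y l r u hxy hnd hxl hyl hperm hcom hr hcx hcy hA hB
  classical
  obtain ⟨e, rfl⟩ : ∃ e, d = e + 2 := ⟨d - 2, by omega⟩
  rw [Nat.add_sub_cancel] at hA hB
  obtain ⟨Im, him⟩ := hIM V H (e + 2)
  obtain ⟨Im2, him2⟩ := hIM V H e
  obtain ⟨pLI, pLIC, pand, -, -⟩ := hPC V (e + 2)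
  obtain ⟨qLI, qLIC, qand, -, -⟩ := hPC V e
  have hne : x ≠ y := hxy.ne
  have hndru : (r ++ u).Nodup := hperm.nodup_iff.1 hnd
  have hndu : u.Nodup := (List.nodup_append.1 hndru).2.1
  have hxru : x ∉ r ++ u := fun h => hxl (hperm.mem_iff.2 h)
  have hyru : y ∉ r ++ u := fun h => hyl (hperm.mem_iff.2 h)
  -- step A
  obtain ⟨w', hw'im, ⟨hw'C, hw'A⟩, -, hw'B⟩ := him2.irr u
    (fun w => LIC H w u ∧ LI w (nbl H u x)) (fun w => LIC H w u ∧ LI w (nbl H u y))
    (qand _ _ (qLIC H u) (qLI _)) (qand _ _ (qLIC H u) (qLI _))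
    (by
      obtain ⟨w, hw, hw2⟩ := hA
      exact ⟨w, reg_mem him2 hndu hw, hw.2, hw2⟩)
    (by
      obtain ⟨w, hw, hw2⟩ := hB
      exact ⟨w, reg_mem him2 hndu hw, hw.2, hw2⟩)
  have hw'O : Orth H w' u := him2.orth u w' hndu hw'im
  -- step B
  have hLICemb : ∀ l : List V, LIC H w' l → LIC H (fun v => emb e (w' v)) l := by
    intro l
    induction l with
    | nil => intro _; trivial
    | cons i l ih => intro h; exact ⟨ih h.1, LI_emb h.2⟩
  have hreg1 : Reg H (fun v => emb e (w' v)) u :=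
    ⟨fun i hi j hj hij => by rw [emb_dot]; exact hw'O i hi j hj hij, hLICemb u hw'C⟩
  have him1 := reg_mem him hndu hreg1
  -- step C
  set w₂ : V → Fin (e + 2) → ℝ := fun v => if v ∈ r then 0 else emb e (w' v) with hw₂
  have hdisj : ∀ j ∈ u, j ∉ r := fun j hj hjr => by
    have := (List.nodup_append.1 hndru).2.2
    exact this j hjr j hj rfl
  have hw2u : w₂ ∈ Im u := him.congr u _ _ him1 (fun j hj => by simp [hw₂, hdisj j hj])
  have hw2r : ∀ r' : List V, (∀ i ∈ r', i ∈ r) → (r' ++ u).Nodup → w₂ ∈ Im (r' ++ u) := by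
    intro r'
    induction r' with
    | nil => intro _ _; exact hw2u
    | cons i r' ih =>
      intro h1 h2
      have h2' := List.nodup_cons.1 h2
      exact him.zero i (r' ++ u) w₂ h2'.1 (ih (fun j hj => h1 j (List.mem_cons_of_mem _ hj)) h2'.2)
        (by simp [hw₂, h1 i List.mem_cons_self])
  have hw2ru : w₂ ∈ Im (r ++ u) := hw2r r (fun i hi => hi) hndru
  set k₁ : Fin (e + 2) := ⟨e, by omega⟩ with hk₁
  set k₂ : Fin (e + 2) := ⟨e + 1, by omega⟩ with hk₂
  have hk12 : k₁ ≠ k₂ := by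
    intro h
    have := congrArg Fin.val h
    simp [hk₁, hk₂] at this
  set w₃ : V → Fin (e + 2) → ℝ :=
    Function.update (Function.update w₂ x (Pi.single k₁ 1)) y (Pi.single k₂ 1) with hw₃
  have e3x : w₃ x = Pi.single k₁ 1 := by simp [hw₃, hne]
  have e3y : w₃ y = Pi.single k₂ 1 := by simp [hw₃]
  have e3 : ∀ j ∈ r ++ u, w₃ j = w₂ j := by
    intro j hj
    have h1 : j ≠ x := fun h => hxru (h ▸ hj)
    have h2 : j ≠ y := fun h => hyru (h ▸ hj)
    simp [hw₃, h1, h2]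
  have hw3ru : w₃ ∈ Im (r ++ u) := him.congr _ _ _ hw2ru e3
  have edot : ∀ (k : Fin (e + 2)), e ≤ k.val → ∀ j ∈ r ++ u,
      (Pi.single k 1 : Fin (e + 2) → ℝ) ⬝ᵥ w₃ j = 0 := by
    intro k hk j hj
    rw [e3 j hj]
    by_cases h : j ∈ r
    · simp [hw₂, h]
    · simp only [hw₂, h, if_false]
      exact emb_single e _ k hk
  have eA : nbl H (r ++ u) x = nbl H u x := by
    ext j
    rw [mem_nbl, mem_nbl, List.mem_append]
    constructor
    · rintro ⟨h | h, h2⟩
      · exact absurd h2 (hr j h).1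
      · exact ⟨h, h2⟩
    · rintro ⟨h, h2⟩
      exact ⟨Or.inr h, h2⟩
  have eB : nbl H (r ++ u) y = nbl H u y := by
    ext j
    rw [mem_nbl, mem_nbl, List.mem_append]
    constructor
    · rintro ⟨h | h, h2⟩
      · exact absurd h2 (hr j h).2
      · exact ⟨h, h2⟩
    · rintro ⟨h, h2⟩
      exact ⟨Or.inr h, h2⟩
  have eAl : nbl H l x = nbl H u x := by
    rw [← eA]
    ext j
    rw [mem_nbl, mem_nbl, hperm.mem_iff]
  have eBl : nbl H l y = nbl H u y := by
    rw [← eB]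
    ext j
    rw [mem_nbl, mem_nbl, hperm.mem_iff]
  have eins : ∀ (l : List V) (a b : V), H.Adj b a →
      nbl H (a :: l) b = insert a (nbl H l b) := by
    intro l a b hab
    ext j
    rw [mem_nbl, Finset.mem_insert, mem_nbl, List.mem_cons]
    constructor
    · rintro ⟨h | h, h2⟩
      · exact Or.inl h
      · exact Or.inr ⟨h, h2⟩
    · rintro (h | ⟨h, h2⟩)
      · exact ⟨Or.inl h, h ▸ hab⟩
      · exact ⟨Or.inr h, h2⟩
  have hw3A : LI w₃ (nbl H u x) := by
    refine LI_congr (fun j hj => ?_) (LI_emb hw'A)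
    have hju : j ∈ u := (mem_nbl.1 hj).1
    rw [e3 j (List.mem_append_right _ hju)]
    simp [hw₂, hdisj j hju]
  have hw3B : LI w₃ (nbl H u y) := by
    refine LI_congr (fun j hj => ?_) (LI_emb hw'B)
    have hju : j ∈ u := (mem_nbl.1 hj).1
    rw [e3 j (List.mem_append_right _ hju)]
    simp [hw₂, hdisj j hju]
  have hself : ∀ k : Fin (e + 2),
      (Pi.single k 1 : Fin (e + 2) → ℝ) ⬝ᵥ (Pi.single k 1 : Fin (e + 2) → ℝ) ≠ 0 := by
    intro k
    rw [single_one_dotProduct]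
    simp
  have hw3xB : LI w₃ (insert x (nbl H u y)) := by
    refine LI_insert hw3B ?_ fun j hj => ?_
    · rw [e3x]
      exact hself k₁
    · rw [e3x]
      exact edot k₁ (by simp [hk₁]) j (List.mem_append_right _ (mem_nbl.1 hj).1)
  have hw3yA : LI w₃ (insert y (nbl H u x)) := by
    refine LI_insert hw3A ?_ fun j hj => ?_
    · rw [e3y]
      exact hself k₂
    · rw [e3y]
      exact edot k₂ (by simp [hk₂]) j (List.mem_append_right _ (mem_nbl.1 hj).1)
  have hw3x : w₃ ∈ Im (x :: (r ++ u)) := by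
    refine him.step x _ _ hxru hw3ru ?_ fun j hj _ => ?_
    · rw [eA]
      exact hw3A
    · rw [e3x]
      exact edot k₁ (by simp [hk₁]) j hj
  have hyx : y ∉ x :: (r ++ u) := by
    rw [List.mem_cons]
    rintro (h | h)
    · exact hne h.symm
    · exact hyru h
  have hw3y : w₃ ∈ Im (y :: x :: (r ++ u)) := by
    refine him.step y _ _ hyx hw3x ?_ fun j hj _ => ?_
    · rw [eins _ _ _ hxy.symm, eB]
      exact hw3xB
    · rw [e3y]
      rcases List.mem_cons.1 hj with rfl | hj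
      · rw [e3x]
        exact single_dot e _ _ hk12.symm
      · exact edot k₂ (by simp [hk₂]) j hj
  -- condition (ii)
  obtain ⟨w₅, hw5l, hw5ru⟩ := hcom
  set w₄ : V → Fin (e + 2) → ℝ := Function.update (Function.update w₅ x 0) y 0 with hw₄
  have e4x : w₄ x = 0 := by simp [hw₄, hne]
  have e4y : w₄ y = 0 := by simp [hw₄]
  have e4 : ∀ j ∈ r ++ u, w₄ j = w₅ j := by
    intro j hj
    have h1 : j ≠ x := fun h => hxru (h ▸ hj)
    have h2 : j ≠ y := fun h => hyru (h ▸ hj)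
    simp [hw₄, h1, h2]
  have hw4y : w₄ ∈ Im (y :: x :: (r ++ u)) :=
    him.zero y _ _ hyx (him.zero x _ _ hxru (him.congr _ _ _ (reg_mem him hndru hw5ru) e4) e4x) e4y
  obtain ⟨w, hwim, ⟨hwA, hwB, hwxB, hwyA⟩, hwC1, hwC2⟩ := him.irr (y :: x :: (r ++ u))
    (fun w => LI w (nbl H u x) ∧ LI w (nbl H u y) ∧ LI w (insert x (nbl H u y)) ∧
      LI w (insert y (nbl H u x)))
    (fun w => LIC H w (r ++ u) ∧ LIC H w l)
    (pand _ _ (pLI _) (pand _ _ (pLI _) (pand _ _ (pLI _) (pLI _))))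
    (pand _ _ (pLIC H _) (pLIC H _))
    ⟨w₃, hw3y, hw3A, hw3B, hw3xB, hw3yA⟩
    ⟨w₄, hw4y, LIC_congr (fun j hj => (e4 j hj).symm) hw5ru.2,
      LIC_congr (fun j hj => (e4 j (hperm.mem_iff.1 hj)).symm) hw5l.2⟩
  have hndyx : (y :: x :: (r ++ u)).Nodup :=
    List.nodup_cons.2 ⟨hyx, List.nodup_cons.2 ⟨hxru, hndru⟩⟩
  have horth := him.orth _ w hndyx hwim
  have hm1 : ∀ j ∈ y :: x :: l, j ∈ y :: x :: (r ++ u) := by
    intro j hj
    rw [List.mem_cons, List.mem_cons] at hj ⊢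
    rcases hj with h | h | h
    · exact Or.inl h
    · exact Or.inr (Or.inl h)
    · exact Or.inr (Or.inr (hperm.mem_iff.1 h))
  have hm2 : ∀ j ∈ x :: y :: l, j ∈ y :: x :: (r ++ u) := by
    intro j hj
    rw [List.mem_cons, List.mem_cons] at hj ⊢
    rcases hj with h | h | h
    · exact Or.inr (Or.inl h)
    · exact Or.inl h
    · exact Or.inr (Or.inr (hperm.mem_iff.1 h))
  refine ⟨w, ⟨fun i hi j hj => horth i (hm1 i hi) j (hm1 j hj), ⟨hwC2, ?_⟩, ?_⟩,
    ⟨fun i hi j hj => horth i (hm2 i hi) j (hm2 j hj), ⟨hwC2, ?_⟩, ?_⟩⟩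
  · rw [eAl]
    exact hwA
  · rw [eins _ _ _ hxy.symm, eBl]
    exact hwxB
  · rw [eBl]
    exact hwB
  · rw [eins _ _ _ hxy, eAl]
    exact hwyA

end Pool.Agent.Run7.h11.GC
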